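import Pool.Agent.H87.AX.Targets4
import Pool.Agent.H87.SN.ANG
import Pool.Agent.H96.SN.BO2

/-! Row BTH of the board axs (MP_2697e3_an): the integral identity for the angular derivative. -/

set_option autoImplicit false

namespace Pool.Agent.H14.AX

open Pool.Agent.H87.SN Pool.Agent.H87.SH Pool.Agent.H87.AX
open Pool.Agent.H96.SN (cd_fderiv hd_of fd_eval two_le_inf' fd_normsq lap_normsq Jm_zero Jm_one
  Jm_succ)
open MeasureTheory Metric Set Filter Topology
open scoped ContDiff RealInnerProductSpace ENNReal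

/-- The Laplacian commutes with the rotation field. -/
theorem lap_uth {d m : ℕ} {U : Set (E (d + 2))} {u : E (d + 2) → E m} (hU : IsOpen U)
    (hu : ContDiffOn ℝ ∞ u U) {x : E (d + 2)} (hx : x ∈ U) :
    lap (uth u) x = fderiv ℝ (lap u) x (Jm d x) := by
  have h1 := cd_fderiv hU hu
  have h2 := cd_fderiv hU h1
  have hJ : ContDiffOn ℝ ∞ (fun x : E (d + 2) => Jm d x) U := (Jm d).contDiff.contDiffOn
  have huth : ContDiffOn ℝ ∞ (uth u) U := h1.clm_apply hJ
  set D1 := fderiv ℝ u with hD1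
  set D2 := fderiv ℝ D1 with hD2
  set D3 := fderiv ℝ D2 with hD3
  have d1 : ∀ y ∈ U, HasFDerivAt D1 (D2 y) y := fun y hy => hd_of hU h1 hy
  have d2 : ∀ y ∈ U, HasFDerivAt D2 (D3 y) y := fun y hy => hd_of hU h2 hy
  have hJd : ∀ y : E (d + 2), HasFDerivAt (fun x : E (d + 2) => Jm d x) (Jm d) y :=
    fun y => (Jm d).hasFDerivAt
  have hth1 : ∀ y ∈ U, ∀ v, fderiv ℝ (uth u) y v = D1 y (Jm d v) + D2 y v (Jm d y) := by
    intro y hy v
    have h := (d1 y hy).clm_apply (hJd y)
    have e : fderiv ℝ (uth u) y = (D1 y).comp (Jm d) + (D2 y).flip (Jm d y) := h.fderiv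
    rw [e]
    simp
  have huth1 := cd_fderiv hU huth
  have hth2 : ∀ w v, fderiv ℝ (fderiv ℝ (uth u)) x w v =
      D2 x w (Jm d v) + (D3 x w v (Jm d x) + D2 x v (Jm d w)) := by
    intro w v
    have e1 := fd_eval (hd_of hU huth1 hx) v
    have e2 : (fun y => fderiv ℝ (uth u) y v) =ᶠ[𝓝 x]
        (fun y => D1 y (Jm d v) + D2 y v (Jm d y)) := by
      filter_upwards [hU.mem_nhds hx] with y hy
      exact hth1 y hy v
    have e3 := e1.congr_of_eventuallyEq e2.symm
    have e4 := (fd_eval (d1 x hx) (Jm d v)).add ((fd_eval (d2 x hx) v).clm_apply (hJd x))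
    have e5 := congrArg (fun L => L w) (e3.unique e4)
    simp only [ContinuousLinearMap.flip_apply, add_apply,
      ContinuousLinearMap.comp_apply] at e5
    rw [e5]
    abel
  have hsym2 : ∀ y ∈ U, ∀ v w, D2 y v w = D2 y w v := by
    intro y hy v w
    have h := (hu.contDiffAt (hU.mem_nhds hy)).isSymmSndFDerivAt two_le_inf'
    exact h v w
  have hsym3a : ∀ v w z, D3 x v w z = D3 x w v z := by
    intro v w z
    have h := (h1.contDiffAt (hU.mem_nhds hx)).isSymmSndFDerivAt two_le_inf'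
    rw [show D3 x v w = D3 x w v from h v w]
  have hsym3b : ∀ v w z, D3 x v w z = D3 x v z w := by
    intro v w z
    have e1 := fd_eval (fd_eval (d2 x hx) w) z
    have e2 := fd_eval (fd_eval (d2 x hx) z) w
    have e3 : (fun y => D2 y w z) =ᶠ[𝓝 x] (fun y => D2 y z w) := by
      filter_upwards [hU.mem_nhds hx] with y hy
      exact hsym2 y hy w z
    have e4 := congrArg (fun L => L v) ((e1.congr_of_eventuallyEq e3.symm).unique e2)
    simpa using e4
  have hlap : HasFDerivAt (lap u) (∑ i : Fin (d + 2), ((D3 x).flip (bv i)).flip (bv i)) x := by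
    have h := HasFDerivAt.fun_sum (u := Finset.univ)
      (A := fun (i : Fin (d + 2)) (y : E (d + 2)) => D2 y (bv i) (bv i))
      (A' := fun i => ((D3 x).flip (bv i)).flip (bv i))
      (fun i _ => fd_eval (fd_eval (d2 x hx) (bv i)) (bv i))
    exact h
  have hsum0 : ∑ i : Fin (d + 2), D2 x (bv i) (Jm d (bv i)) = 0 := by
    rw [Fin.sum_univ_succ, Fin.sum_univ_succ]
    have e0 : ∑ i : Fin d, D2 x (bv i.succ.succ) (Jm d (bv i.succ.succ)) = 0 := by
      apply Finset.sum_eq_zero
      intro i _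
      rw [Jm_succ, map_zero]
    rw [e0, add_zero]
    have e1 : (Fin.succ 0 : Fin (d + 2)) = 1 := rfl
    rw [e1, Jm_zero, Jm_one, map_neg, hsym2 x hx (bv 0) (bv 1)]
    abel
  have hlapth : lap (uth u) x = ∑ i : Fin (d + 2), D3 x (Jm d x) (bv i) (bv i) := by
    unfold lap
    have e : ∀ i : Fin (d + 2), fderiv ℝ (fderiv ℝ (uth u)) x (bv i) (bv i) =
        D2 x (bv i) (Jm d (bv i)) + D3 x (Jm d x) (bv i) (bv i) + D2 x (bv i) (Jm d (bv i)) := by
      intro i
      rw [hth2, hsym3b (bv i) (bv i) (Jm d x), hsym3a (bv i) (Jm d x) (bv i)]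
      abel
    simp_rw [e]
    rw [Finset.sum_add_distrib, Finset.sum_add_distrib, hsum0]
    simp
  rw [hlapth, hlap.fderiv, sum_apply]
  rfl

/-- The Laplacian of a smooth map is smooth. -/
theorem cd_lap {n m : ℕ} {U : Set (E n)} {u : E n → E m} (hU : IsOpen U)
    (hu : ContDiffOn ℝ ∞ u U) : ContDiffOn ℝ ∞ (lap u) U := by
  have h2 := cd_fderiv hU (cd_fderiv hU hu)
  unfold lap
  exact ContDiffOn.sum fun i _ => (h2.clm_apply contDiffOn_const).clm_apply contDiffOn_const

/-- The rotation field has no diagonal entries. -/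
theorem Jm_diag {d : ℕ} (i : Fin (d + 2)) : (Jm d (bv i)) i = 0 := by
  refine Fin.cases ?_ (fun j => Fin.cases ?_ (fun k => ?_) j) i
  · rw [Jm_zero]; simp [bv]
  · have e1 : (Fin.succ 0 : Fin (d + 2)) = 1 := rfl
    rw [e1, Jm_one]; simp [bv]
  · rw [Jm_succ]; simp

/-- Integration by parts along the rotation field. -/
theorem int_rot {d : ℕ} (hROT : T_ROT) (hIBP : T_IBP) {U : Set (E (d + 2))}
    {a g : E (d + 2) → ℝ} (hU : IsOpen U) (ha : ContDiff ℝ 1 a) (hc : HasCompactSupport a)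
    (hs : tsupport a ⊆ U) (hr : ∀ (θ : ℝ) (x : E (d + 2)), a (rot θ x) = a x)
    (hg : ContDiffOn ℝ 1 g U) : ∫ x, a x * fderiv ℝ g x (Jm d x) = 0 := by
  have hgd : ContinuousOn (fderiv ℝ g) U :=
    (hg.fderiv_of_isOpen hU (m := 0) (by norm_num)).continuousOn
  -- the coefficient functions
  have hcoef : ∀ i : Fin (d + 2), ContDiff ℝ 1 (fun x : E (d + 2) => (Jm d x) i) := by
    intro i
    have h1 : ContDiff ℝ 1 (fun x : E (d + 2) => Jm d x) := (Jm d).contDiff
    exact (contDiff_euclidean.1 h1) i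
  have hai : ∀ i : Fin (d + 2), ContDiff ℝ 1 (fun x => a x * (Jm d x) i) :=
    fun i => ha.mul (hcoef i)
  have hci : ∀ i : Fin (d + 2), HasCompactSupport (fun x => a x * (Jm d x) i) :=
    fun i => hc.mul_right
  have hsi : ∀ i : Fin (d + 2), tsupport (fun x => a x * (Jm d x) i) ⊆ U :=
    fun i => subset_trans tsupport_mul_subset_left hs
  have hI := fun i : Fin (d + 2) => hIBP.2 (d + 2) U (fun x => a x * (Jm d x) i) g (bv i) hU
    (hai i) (hci i) (hsi i) hg
  have e1 : ∀ x, a x * fderiv ℝ g x (Jm d x) =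
      ∑ i : Fin (d + 2), (a x * (Jm d x) i) * fderiv ℝ g x (bv i) := by
    intro x
    have : fderiv ℝ g x (Jm d x) = ∑ i : Fin (d + 2), (Jm d x) i * fderiv ℝ g x (bv i) := by
      conv_lhs => rw [← sum_bv (Jm d x)]
      rw [fderiv_sum_bv]
      simp
    rw [this, Finset.mul_sum]
    exact Finset.sum_congr rfl fun i _ => by ring
  have i1 : ∀ i : Fin (d + 2), Integrable
      (fun x => (a x * (Jm d x) i) * fderiv ℝ g x (bv i)) := fun i =>
    int_mul hU (hai i).continuous (hci i) (hsi i) (hgd.clm_apply continuousOn_const)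
  have hDa : ∀ i : Fin (d + 2), ∀ x, fderiv ℝ (fun x => a x * (Jm d x) i) x (bv i) =
      fderiv ℝ a x (bv i) * (Jm d x) i := by
    intro i x
    have had : DifferentiableAt ℝ a x := (ha.differentiable (by norm_num)) x
    have hJi : HasFDerivAt (fun x : E (d + 2) => (Jm d x) i)
        ((EuclideanSpace.proj (𝕜 := ℝ) i).comp (Jm d)) x := by
      exact ((EuclideanSpace.proj (𝕜 := ℝ) i).comp (Jm d)).hasFDerivAt
    have hm : HasFDerivAt (fun x => a x * (Jm d x) i)
        (a x • ((EuclideanSpace.proj (𝕜 := ℝ) i).comp (Jm d)) + (Jm d x) i • fderiv ℝ a x) x :=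
      had.hasFDerivAt.mul hJi
    rw [hm.fderiv]
    have hz : ((EuclideanSpace.proj (𝕜 := ℝ) i).comp (Jm d)) (bv i) = 0 := by
      show (Jm d (bv i)) i = 0
      exact Jm_diag i
    simp only [add_apply, smul_apply, smul_eq_mul, hz]
    ring
  have i2 : ∀ i : Fin (d + 2), Integrable
      (fun x => fderiv ℝ (fun x => a x * (Jm d x) i) x (bv i) * g x) := by
    intro i
    refine int_mul hU (((hai i).continuous_fderiv (by norm_num)).clm_apply continuous_const)
      (HasCompactSupport.fderiv_apply ℝ (hci i) (bv i)) ?_ hg.continuousOn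
    refine subset_trans (closure_minimal ?_ (isClosed_tsupport _)) (hsi i)
    intro x hx
    by_contra h
    apply hx
    have h0 : (fun x => a x * (Jm d x) i) =ᶠ[𝓝 x] fun _ => (0 : ℝ) :=
      notMem_tsupport_iff_eventuallyEq.mp h
    show fderiv ℝ (fun x => a x * (Jm d x) i) x (bv i) = 0
    rw [h0.fderiv_eq]
    simp
  calc ∫ x, a x * fderiv ℝ g x (Jm d x)
      = ∫ x, ∑ i : Fin (d + 2), (a x * (Jm d x) i) * fderiv ℝ g x (bv i) :=
        integral_congr_ae (Eventually.of_forall e1)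
    _ = ∑ i : Fin (d + 2), ∫ x, (a x * (Jm d x) i) * fderiv ℝ g x (bv i) :=
        integral_finsetSum _ fun i _ => i1 i
    _ = ∑ i : Fin (d + 2), - ∫ x, fderiv ℝ (fun x => a x * (Jm d x) i) x (bv i) * g x :=
        Finset.sum_congr rfl fun i _ => hI i
    _ = - ∫ x, ∑ i : Fin (d + 2), fderiv ℝ (fun x => a x * (Jm d x) i) x (bv i) * g x := by
        rw [Finset.sum_neg_distrib, integral_finsetSum _ fun i _ => i2 i]
    _ = - ∫ x : E (d + 2), (0 : ℝ) := by
        congr 1
        refine integral_congr_ae (Eventually.of_forall fun x => ?_)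
        have had : DifferentiableAt ℝ a x := (ha.differentiable (by norm_num)) x
        have hz := rot_deriv hROT had (fun θ => hr θ x)
        have hz' : ∑ i : Fin (d + 2), fderiv ℝ a x (bv i) * (Jm d x) i = 0 := by
          rw [← hz]
          conv_rhs => rw [← sum_bv (Jm d x)]
          rw [fderiv_sum_bv]
          exact Finset.sum_congr rfl fun i _ => by rw [smul_eq_mul]; ring
        show ∑ i : Fin (d + 2), fderiv ℝ (fun x => a x * (Jm d x) i) x (bv i) * g x = 0
        rw [← Finset.sum_mul, Finset.sum_congr rfl fun i _ => hDa i x, hz', zero_mul]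
    _ = 0 := by simp

theorem pf_BTH (hROT : T_ROT) (hIBP : T_IBP) (hGRN : T_GRN) : T_BTH := by
  intro d m U u a hU hrot hu ha hc hs hr
  have h1 := cd_fderiv hU hu
  have hJ : ContDiffOn ℝ ∞ (fun x : E (d + 2) => Jm d x) U := (Jm d).contDiff.contDiffOn
  have huth : ContDiffOn ℝ ∞ (uth u) U := h1.clm_apply hJ
  refine ⟨huth, ?_⟩
  have hlu := cd_lap hU hu
  have hDth := cd_fderiv hU huth
  have hthth : ContDiffOn ℝ ∞ (uthth u) U := hDth.clm_apply hJ
  have hg : ContDiffOn ℝ ∞ (fun y => ⟪uth u y, lap u y⟫) U := huth.inner ℝ hlu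
  have h1inf : (1 : WithTop ℕ∞) ≤ ((⊤ : ℕ∞) : WithTop ℕ∞) := WithTop.coe_le_coe.2 le_top
  have hR0 := int_rot hROT hIBP hU ha hc hs hr (hg.of_le h1inf)
  have haz : ∀ x, x ∉ U → a x = 0 := fun x hx => by
    by_contra h
    exact hx (hs (subset_tsupport _ h))
  -- derivative of the pairing
  have hDg : ∀ x ∈ U, fderiv ℝ (fun y => ⟪uth u y, lap u y⟫) x (Jm d x) =
      ⟪uth u x, lap (uth u) x⟫ + ⟪uthth u x, lap u x⟫ := by
    intro x hx
    have e1 := (hd_of hU huth hx).inner ℝ (hd_of hU hlu hx)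
    rw [e1.fderiv, lap_uth hU hu hx]
    simp only [ContinuousLinearMap.comp_apply, ContinuousLinearMap.prod_apply,
      fderivInnerCLM_apply]
    rfl
  have hf : ContDiffOn ℝ 2 (fun y => ‖uth u y‖ ^ 2) U :=
    (huth.norm_sq ℝ).of_le (WithTop.coe_le_coe.2 le_top)
  have hG := hGRN (d + 2) U a (fun y => ‖uth u y‖ ^ 2) hU ha hc hs hf
  have e1 : ∫ x, ∑ i : Fin (d + 2), fderiv ℝ a x (bv i) *
      fderiv ℝ (fun y => ‖uth u y‖ ^ 2) x (bv i) =
      2 * ∫ x, ∑ i : Fin (d + 2), fderiv ℝ a x (bv i) *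
        ⟪uth u x, fderiv ℝ (uth u) x (bv i)⟫ := by
    rw [← integral_const_mul]
    refine integral_congr_ae (Eventually.of_forall fun x => ?_)
    beta_reduce
    rw [Finset.mul_sum]
    refine Finset.sum_congr rfl fun i _ => ?_
    by_cases hx : x ∈ U
    · rw [fd_normsq hU huth hx (bv i)]; ring
    · have h0 : a =ᶠ[𝓝 x] fun _ => (0 : ℝ) :=
        notMem_tsupport_iff_eventuallyEq.mp fun h => hx (hs h)
      rw [h0.fderiv_eq]; simp
  have ia : Integrable (fun x => a x * lap (fun y => ‖uth u y‖ ^ 2) x) :=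
    int_mul hU ha.continuous hc hs (lap_cont hU hf)
  have ib : Integrable (fun x => a x * fderiv ℝ (fun y => ⟪uth u y, lap u y⟫) x (Jm d x)) :=
    int_mul hU ha.continuous hc hs
      ((cd_fderiv hU hg).continuousOn.clm_apply (Jm d).continuous.continuousOn)
  have e2 : ∫ x, a x * (nsq (fderiv ℝ (uth u) x) - ⟪uthth u x, lap u x⟫) =
      1 / 2 * (∫ x, a x * lap (fun y => ‖uth u y‖ ^ 2) x) -
        ∫ x, a x * fderiv ℝ (fun y => ⟪uth u y, lap u y⟫) x (Jm d x) := by
    rw [← integral_const_mul, ← integral_sub (ia.const_mul (1 / 2)) ib]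
    refine integral_congr_ae (Eventually.of_forall fun x => ?_)
    beta_reduce
    by_cases hx : x ∈ U
    · rw [lap_normsq hU huth hx, hDg x hx]; ring
    · rw [haz x hx]; ring
  rw [e2, hR0, hG, e1]
  ring

end Pool.Agent.H14.AX
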